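import Pool.Agent.helper43.BMH.Spec

/-!
# bmh:BAS
-/

set_option autoImplicit false

namespace Pool.Agent.helper43.BMH

theorem t_bas (hp : PAI) (hc : CPB) (hl : POL) : BAS := by
  intro lam hlam B η hη
  obtain ⟨δ, hδ, H⟩ := hc lam hlam (η / 2) (by linarith)
  obtain ⟨n₁, hn₁⟩ := hl (B + 1) 0 (η / 2) (by linarith)
  refine ⟨δ, hδ, max n₁ 1, fun ι _ _ T hT hn D hD z hz => ?_⟩
  have hpos : 0 < Fintype.card ι := lt_of_lt_of_le one_pos (le_trans (le_max_right _ _) hn)
  haveI : Nonempty ι := Fintype.card_pos_iff.1 hpos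
  have h1 := hp ι T B z lam D hz
  have h2 := H ι T D hD (orb z)
  have h3 := hn₁ (Fintype.card ι) (le_trans (le_max_left _ _) hn)
  rw [pow_zero, mul_one] at h3
  set n : ℝ := (Fintype.card ι : ℝ) with hndef
  have hn0 : 0 ≤ n := Nat.cast_nonneg _
  have he := Real.exp_pos 1
  have h4 : (Real.exp 1 * n) ^ (B + 1) ≤ Real.exp (η / 2 * n) := by
    refine le_trans (pow_le_pow_left₀ (by positivity) ?_ _) h3
    nlinarith
  have h5 : (2 : ℝ) ^ (Fintype.card ι) = Real.exp (n * Real.log 2) := by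
    rw [hndef, ← Real.log_pow, Real.exp_log (by positivity)]
  rw [h5] at h2
  refine h1.trans ?_
  have h6 : (Real.exp 1 * n) ^ (B + 1) * Real.exp (-n * ent z) * ∑ u ∈ orb z, (cnt T lam D u : ℝ)
      ≤ Real.exp (η / 2 * n) * Real.exp (-n * ent z)
        * (Real.exp (n * Real.log 2) * Real.exp (η / 2 * n)) := by
    refine mul_le_mul (mul_le_mul_of_nonneg_right h4 (Real.exp_pos _).le) h2 ?_ (by positivity)
    exact Finset.sum_nonneg fun u _ => Nat.cast_nonneg _
  have h7 : Real.exp (η / 2 * n) * Real.exp (-n * ent z)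
        * (Real.exp (n * Real.log 2) * Real.exp (η / 2 * n))
      = Real.exp (-n * (ent z - Real.log 2 - η)) := by
    rw [← Real.exp_add, ← Real.exp_add, ← Real.exp_add]
    congr 1
    ring
  rw [h7] at h6
  calc (Fintype.card (SP ι) : ℝ) * (Real.exp 1 * n) ^ (B + 1) * Real.exp (-n * ent z)
        * ∑ u ∈ orb z, (cnt T lam D u : ℝ)
      = (Fintype.card (SP ι) : ℝ) * ((Real.exp 1 * n) ^ (B + 1) * Real.exp (-n * ent z)
        * ∑ u ∈ orb z, (cnt T lam D u : ℝ)) := by ring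
    _ ≤ _ := mul_le_mul_of_nonneg_left h6 (Nat.cast_nonneg _)

end Pool.Agent.helper43.BMH
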