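import Pool.Agent.helper43.BMH.Spec

/-!
# bmh:FAC
-/

set_option autoImplicit false

namespace Pool.Agent.helper43.BMH

theorem FAC_aux (k : ℕ) (hk : 1 ≤ k) :
    Real.exp 1 * (k : ℝ) ^ (k + 1) ≤ ((k : ℝ) + 1) ^ (k + 1) := by
  have hk0 : (0 : ℝ) < (k : ℝ) := by exact_mod_cast hk
  have h1 : (k : ℝ) / (k + 1) ≤ Real.exp (-1 / ((k : ℝ) + 1)) := by
    have h2 := Real.add_one_le_exp (-1 / ((k : ℝ) + 1))
    have h3 : -1 / ((k : ℝ) + 1) + 1 = (k : ℝ) / (k + 1) := by field_simp; ring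
    rwa [h3] at h2
  have h4 : ((k : ℝ) / (k + 1)) ^ (k + 1) ≤ Real.exp (-1) := by
    have h5 := pow_le_pow_left₀ (by positivity : (0 : ℝ) ≤ (k : ℝ) / (k + 1)) h1 (k + 1)
    rw [← Real.exp_nat_mul] at h5
    have h6 : ((k + 1 : ℕ) : ℝ) * (-1 / ((k : ℝ) + 1)) = -1 := by
      push_cast
      field_simp
    rwa [h6] at h5
  rw [div_pow, div_le_iff₀ (by positivity)] at h4
  calc Real.exp 1 * (k : ℝ) ^ (k + 1)
      ≤ Real.exp 1 * (Real.exp (-1) * ((k : ℝ) + 1) ^ (k + 1)) :=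
        mul_le_mul_of_nonneg_left h4 (Real.exp_pos 1).le
    _ = ((k : ℝ) + 1) ^ (k + 1) := by
        rw [← mul_assoc, ← Real.exp_add, add_neg_cancel, Real.exp_zero, one_mul]

theorem FAC_up (k : ℕ) (hk : 1 ≤ k) :
    (k.factorial : ℝ) ≤ Real.exp 1 * (k : ℝ) * ((k : ℝ) / Real.exp 1) ^ k := by
  induction k, hk using Nat.le_induction with
  | base =>
    have h := Real.exp_pos 1
    rw [Nat.factorial_one, Nat.cast_one, pow_one, mul_one, one_div, mul_inv_cancel₀ h.ne']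
  | succ k hk ih =>
    have hk0 : (0 : ℝ) < (k : ℝ) := by exact_mod_cast hk
    have he := Real.exp_pos 1
    rw [Nat.factorial_succ, Nat.cast_mul]
    push_cast
    have h1 : ((k : ℝ) + 1) * (k.factorial : ℝ)
        ≤ ((k : ℝ) + 1) * (Real.exp 1 * (k : ℝ) * ((k : ℝ) / Real.exp 1) ^ k) :=
      mul_le_mul_of_nonneg_left ih (by positivity)
    refine h1.trans ?_
    have h2 := FAC_aux k hk
    have h3 : ((k : ℝ) + 1) * (Real.exp 1 * (k : ℝ) * ((k : ℝ) / Real.exp 1) ^ k)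
        = ((k : ℝ) + 1) / Real.exp 1 ^ k * (Real.exp 1 * (k : ℝ) ^ (k + 1)) := by
      rw [div_pow, pow_succ]
      field_simp
    have h4 : Real.exp 1 * ((k : ℝ) + 1) * (((k : ℝ) + 1) / Real.exp 1) ^ (k + 1)
        = ((k : ℝ) + 1) / Real.exp 1 ^ k * ((k : ℝ) + 1) ^ (k + 1) := by
      rw [div_pow, pow_succ (Real.exp 1)]
      field_simp
    rw [h3, h4]
    exact mul_le_mul_of_nonneg_left h2 (by positivity)

theorem t_fac : FAC := by
  intro ι _ _ m c
  classical
  set n : ℕ := Fintype.card ι with hn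
  have hn1 : 1 ≤ n := Fintype.card_pos
  have hnR : (1 : ℝ) ≤ (n : ℝ) := by exact_mod_cast hn1
  have he := Real.exp_pos 1
  let N : Fin m → ℕ := fun a => (Finset.univ.filter fun i => c i = a).card
  have hsum : ∑ a, N a = n := by
    rw [hn, ← Finset.card_univ]
    exact (Finset.card_eq_sum_card_fiberwise (fun i _ => Finset.mem_univ (c i))).symm
  have hprod : ∏ i, (((Finset.univ.filter fun j => c j = c i).card : ℝ) / (n : ℝ))
      = ∏ a, ((N a : ℝ) / (n : ℝ)) ^ N a := by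
    rw [← Finset.prod_fiberwise Finset.univ c]
    apply Finset.prod_congr rfl
    intro a _
    have h1 : ∏ i ∈ Finset.univ.filter (fun i => c i = a),
        (((Finset.univ.filter fun j => c j = c i).card : ℝ) / (n : ℝ))
        = ∏ i ∈ Finset.univ.filter (fun i => c i = a), ((N a : ℝ) / (n : ℝ)) := by
      apply Finset.prod_congr rfl
      intro i hi
      rw [(Finset.mem_filter.1 hi).2]
    rw [h1, Finset.prod_const]
  have hNle : ∀ a, ((N a).factorial : ℝ)
      ≤ (Real.exp 1 * (n : ℝ)) * ((N a : ℝ) / Real.exp 1) ^ N a := by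
    intro a
    rcases Nat.eq_zero_or_pos (N a) with h0 | h0
    · rw [h0, Nat.factorial_zero, pow_zero, mul_one, Nat.cast_one]
      have h1 : (1 : ℝ) ≤ Real.exp 1 := Real.one_le_exp zero_le_one
      nlinarith
    · refine (FAC_up (N a) h0).trans ?_
      refine mul_le_mul_of_nonneg_right ?_ (by positivity)
      refine mul_le_mul_of_nonneg_left ?_ he.le
      have h2 : N a ≤ n := by
        rw [hn, ← Finset.card_univ]
        exact Finset.card_le_card (Finset.filter_subset _ _)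
      exact_mod_cast h2
  have hfac : ((n : ℝ) / Real.exp 1) ^ n ≤ (n.factorial : ℝ) := by
    have h1 := Real.pow_div_factorial_le_exp (n : ℝ) (Nat.cast_nonneg n) n
    rw [div_le_iff₀ (by positivity)] at h1
    rw [div_pow, div_le_iff₀ (by positivity), ← Real.exp_nat_mul, mul_one, mul_comm]
    exact h1
  have hN2 : ∏ a, ((N a : ℝ) / Real.exp 1) ^ N a
      = (∏ a, ((N a : ℝ) / (n : ℝ)) ^ N a) * ((n : ℝ) / Real.exp 1) ^ n := by
    rw [← hsum]
    rw [← Finset.prod_pow_eq_pow_sum, ← Finset.prod_mul_distrib, hsum]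
    apply Finset.prod_congr rfl
    intro a _
    rw [← mul_pow]
    congr 1
    field_simp
  have hNn : 0 ≤ ∏ a, ((N a : ℝ) / (n : ℝ)) ^ N a :=
    Finset.prod_nonneg fun a _ => by positivity
  rw [hprod]
  calc (∏ a : Fin m, (((Finset.univ.filter fun i => c i = a).card.factorial : ℕ) : ℝ))
      ≤ ∏ a : Fin m, ((Real.exp 1 * (n : ℝ)) * ((N a : ℝ) / Real.exp 1) ^ N a) :=
        Finset.prod_le_prod (fun a _ => Nat.cast_nonneg _) (fun a _ => hNle a)
    _ = (Real.exp 1 * (n : ℝ)) ^ m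
        * ((∏ a, ((N a : ℝ) / (n : ℝ)) ^ N a) * ((n : ℝ) / Real.exp 1) ^ n) := by
        rw [Finset.prod_mul_distrib, Finset.prod_const, Finset.card_univ, Fintype.card_fin, hN2]
    _ ≤ (Real.exp 1 * (n : ℝ)) ^ m * ((∏ a, ((N a : ℝ) / (n : ℝ)) ^ N a) * (n.factorial : ℝ)) := by
        refine mul_le_mul_of_nonneg_left (mul_le_mul_of_nonneg_left hfac hNn) (by positivity)
    _ = (n.factorial : ℝ) * (Real.exp 1 * (n : ℝ)) ^ m * ∏ a, ((N a : ℝ) / (n : ℝ)) ^ N a := by
        ring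

end Pool.Agent.helper43.BMH
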