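import Pool.Agent.helper43.BMH.Spec

/-!
# bmh:GD0
-/

set_option autoImplicit false

namespace Pool.Agent.helper43.BMH

theorem t_gd0 (he : EXH) (hr : ROW) (hb : BAS) : GD0 := by
  intro lam hlam B η hη
  obtain ⟨δ, hδ, n₀, H⟩ := hb lam hlam B η hη
  refine ⟨δ, hδ, max n₀ 1, fun k hk => ?_⟩
  rintro ⟨K, hK⟩
  have hk1 : 1 ≤ k := le_trans (le_max_right _ _) hk
  haveI : Nonempty (Fin k) := ⟨⟨0, hk1⟩⟩
  refine ⟨Fin k, inferInstance, inferInstance, SP (Fin k), inferInstance, inferInstance,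
    fun P => rowAct P K, by rw [Fintype.card_fin, pow_zero, one_mul],
    fun P => (hr (Fin k) K P).1 hK, fun D hD z hz => ?_⟩
  have h1 := H (Fin k) K hK (by rw [Fintype.card_fin]; exact le_trans (le_max_left _ _) hk) D hD z hz
  have h2 : 0 ≤ ent z := (he (Fin k) ℤ z).2.1
  have h3 : (0 : ℝ) < (Fintype.card (SP (Fin k)) : ℝ) := by
    exact_mod_cast Fintype.card_pos
  unfold avgN
  rw [div_le_iff₀ h3, mul_comm]
  refine h1.trans (mul_le_mul_of_nonneg_left (Real.exp_le_exp.2 ?_) h3.le)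
  have h4 : (0 : ℝ) ≤ (Fintype.card (Fin k) : ℝ) := Nat.cast_nonneg _
  nlinarith [mul_nonneg h4 h2]

end Pool.Agent.helper43.BMH
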